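import Pool.Agent.H816R2.KM2N

/-!
A Steiner system `S(2,6,231)`: 3 copies of an abelian group of order 77 and 0 fixed points.
-/

set_option autoImplicit false

namespace Pool.Agent.U344.KM

open Pool.Agent.H816R2.KM2

def full231 : List (List ℕ) :=
  [[0, 1, 12, 21, 95, 200],
   [0, 2, 19, 51, 138, 204],
   [0, 3, 41, 44, 174, 188],
   [0, 7, 20, 31, 137, 225],
   [0, 8, 77, 86, 154, 165],
   [0, 9, 117, 134, 173, 196],
   [0, 14, 98, 111, 141, 142],
   [0, 15, 50, 88, 155, 184],
   [0, 22, 59, 122, 183, 215],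
   [0, 23, 81, 99, 159, 181],
   [0, 26, 85, 133, 197, 205],
   [0, 29, 109, 131, 147, 172],
   [0, 30, 82, 91, 126, 167],
   [0, 32, 144, 148, 175, 202],
   [0, 79, 107, 110, 120, 162],
   [0, 89, 96, 101, 116, 223],
   [0, 92, 146, 168, 191, 216],
   [0, 93, 180, 187, 190, 206],
   [0, 104, 149, 163, 198, 229],
   [0, 105, 166, 219, 222, 228],
   [0, 113, 118, 121, 139, 203],
   [0, 152, 176, 177, 189, 226],
   [77, 91, 175, 187, 219, 221]]

def short231 : List (List ℕ × List ℕ) :=
  []

theorem ex231 : ∃ 𝓑 : Set (Finset (Fin 231)), IsS2 (Fin 231) 6 𝓑 :=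
  of_coded (codedP 7 (codedZ 11)) 6 3 0 231 rfl full231 short231
    (by decide +kernel) (by decide +kernel) (by decide +kernel) (by decide +kernel)
    (by decide +kernel) (by decide +kernel)

end Pool.Agent.U344.KM
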