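import Pool.Agent.H816R2.KM2N

/-!
A Steiner system `S(2,6,256)`: 10 copies of an abelian group of order 25 and 6 fixed points.
-/

set_option autoImplicit false

namespace Pool.Agent.U344.KM

open Pool.Agent.H816R2.KM2

def full256 : List (List ℕ) :=
  [[0, 1, 84, 86, 240, 246],
   [0, 2, 37, 40, 217, 222],
   [0, 5, 57, 71, 153, 159],
   [0, 6, 125, 126, 130, 137],
   [0, 9, 165, 181, 210, 232],
   [0, 10, 103, 112, 188, 189],
   [0, 12, 39, 122, 151, 230],
   [0, 13, 69, 81, 199, 207],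
   [0, 25, 50, 75, 100, 255],
   [0, 26, 124, 166, 190, 213],
   [0, 28, 65, 163, 202, 223],
   [0, 29, 58, 157, 235, 237],
   [0, 30, 79, 99, 148, 168],
   [0, 31, 51, 184, 214, 238],
   [0, 32, 95, 138, 147, 155],
   [0, 33, 46, 73, 132, 191],
   [0, 34, 90, 134, 175, 239],
   [0, 36, 114, 128, 176, 198],
   [0, 38, 93, 133, 156, 160],
   [0, 41, 76, 150, 195, 241],
   [0, 42, 60, 89, 119, 250],
   [0, 44, 63, 135, 212, 229],
   [0, 45, 64, 97, 104, 254],
   [0, 47, 107, 140, 205, 219],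
   [0, 48, 72, 77, 113, 251],
   [0, 49, 105, 192, 203, 233],
   [0, 53, 121, 146, 172, 200],
   [0, 54, 111, 139, 142, 226],
   [0, 55, 108, 158, 204, 225],
   [0, 59, 82, 174, 182, 234],
   [0, 61, 96, 171, 211, 249],
   [0, 62, 88, 196, 216, 218],
   [0, 67, 87, 183, 193, 209],
   [0, 68, 117, 141, 227, 231],
   [0, 70, 74, 101, 144, 243],
   [0, 78, 115, 185, 194, 242],
   [0, 80, 106, 167, 197, 221],
   [0, 91, 120, 152, 162, 236],
   [0, 92, 123, 127, 170, 187],
   [0, 94, 109, 116, 136, 208],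
   [0, 143, 164, 180, 201, 247],
   [25, 30, 121, 122, 138, 144],
   [25, 31, 150, 161, 162, 170],
   [25, 32, 88, 106, 224, 226],
   [25, 35, 68, 72, 233, 244],
   [25, 36, 76, 89, 185, 191],
   [25, 39, 135, 192, 215, 231],
   [25, 51, 119, 157, 159, 186],
   [25, 53, 120, 128, 175, 219],
   [25, 55, 96, 137, 147, 176],
   [25, 56, 95, 132, 216, 227],
   [25, 57, 118, 171, 181, 197],
   [25, 60, 83, 182, 229, 240],
   [25, 61, 105, 124, 154, 193],
   [25, 63, 82, 130, 172, 237],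
   [25, 64, 71, 79, 151, 203],
   [25, 66, 108, 127, 166, 200],
   [25, 87, 107, 214, 228, 243],
   [25, 91, 101, 141, 199, 201],
   [25, 92, 114, 149, 189, 242],
   [25, 98, 112, 218, 221, 241],
   [25, 134, 168, 177, 211, 245],
   [50, 52, 131, 172, 223, 233],
   [50, 56, 175, 187, 192, 194],
   [50, 58, 87, 96, 129, 141],
   [50, 63, 108, 110, 205, 211],
   [50, 77, 89, 105, 195, 235],
   [50, 81, 119, 140, 151, 228],
   [50, 82, 101, 137, 161, 184],
   [50, 86, 114, 159, 162, 220],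
   [50, 97, 121, 130, 133, 201],
   [50, 144, 166, 193, 215, 242],
   [75, 81, 200, 212, 213, 223],
   [75, 84, 116, 118, 157, 164],
   [75, 85, 131, 166, 194, 239],
   [75, 148, 163, 178, 218, 233],
   [100, 106, 225, 229, 232, 237],
   [100, 108, 130, 164, 181, 216],
   [100, 146, 154, 182, 210, 243],
   [125, 150, 175, 200, 225, 255],
   [125, 155, 191, 208, 226, 254],
   [125, 156, 187, 218, 249, 252],
   [125, 162, 199, 206, 243, 250],
   [125, 168, 181, 224, 237, 251],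
   [125, 174, 193, 212, 231, 253]]

def short256 : List (List ℕ × List ℕ) :=
  [([0, 1, 2, 3, 4], [0, 7, 14, 16, 23, 252]),
   ([0, 1, 2, 3, 4], [0, 8, 11, 19, 22, 253]),
   ([0, 5, 10, 15, 20], [25, 26, 27, 28, 29, 252]),
   ([0, 1, 2, 3, 4], [25, 34, 38, 42, 46, 253]),
   ([0, 1, 2, 3, 4], [50, 55, 60, 65, 70, 252]),
   ([0, 1, 2, 3, 4], [50, 57, 64, 66, 73, 253]),
   ([0, 5, 10, 15, 20], [75, 76, 77, 78, 79, 253]),
   ([0, 1, 2, 3, 4], [75, 83, 86, 94, 97, 252]),
   ([0, 1, 2, 3, 4], [100, 105, 110, 115, 120, 253]),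
   ([0, 1, 2, 3, 4], [100, 109, 113, 117, 121, 252]),
   ([0], [250, 251, 252, 253, 254, 255])]

theorem ex256 : ∃ 𝓑 : Set (Finset (Fin 256)), IsS2 (Fin 256) 6 𝓑 :=
  of_coded (codedP 5 (codedZ 5)) 6 10 6 256 rfl full256 short256
    (by decide +kernel) (by decide +kernel) (by decide +kernel) (by decide +kernel)
    (by decide +kernel) (by decide +kernel)

end Pool.Agent.U344.KM
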