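import Pool.Agent.H816R2.KM2N

/-!
A Steiner system `S(2,6,261)`: 3 copies of an abelian group of order 87 and 0 fixed points.
-/

set_option autoImplicit false

namespace Pool.Agent.U344.KM

open Pool.Agent.H816R2.KM2

def full261 : List (List ℕ) :=
  [[0, 1, 196, 210, 225, 241],
   [0, 3, 47, 114, 134, 150],
   [0, 4, 133, 149, 183, 206],
   [0, 5, 118, 132, 235, 257],
   [0, 6, 97, 172, 203, 242],
   [0, 7, 105, 158, 179, 256],
   [0, 8, 112, 164, 178, 186],
   [0, 9, 29, 49, 71, 137],
   [0, 10, 79, 92, 173, 174],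
   [0, 12, 192, 221, 230, 255],
   [0, 13, 24, 188, 229, 232],
   [0, 15, 119, 139, 161, 226],
   [0, 16, 52, 66, 193, 223],
   [0, 25, 98, 144, 191, 238],
   [0, 26, 103, 143, 184, 222],
   [0, 27, 58, 120, 168, 231],
   [0, 30, 140, 155, 217, 250],
   [0, 33, 135, 148, 159, 234],
   [0, 34, 109, 170, 189, 224],
   [0, 35, 99, 127, 194, 247],
   [0, 39, 90, 123, 237, 239],
   [0, 89, 96, 121, 142, 165],
   [87, 88, 177, 184, 253, 258],
   [87, 90, 95, 173, 213, 225],
   [87, 114, 145, 214, 233, 250],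
   [87, 117, 219, 224, 245, 246]]

def short261 : List (List ℕ × List ℕ) :=
  []

theorem ex261 : ∃ 𝓑 : Set (Finset (Fin 261)), IsS2 (Fin 261) 6 𝓑 :=
  of_coded (codedP 3 (codedZ 29)) 6 3 0 261 rfl full261 short261
    (by decide +kernel) (by decide +kernel) (by decide +kernel) (by decide +kernel)
    (by decide +kernel) (by decide +kernel)

end Pool.Agent.U344.KM
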