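import Pool.Agent.H816R2.KM2N

/-!
A Steiner system `S(2,6,286)`: 3 copies of an abelian group of order 95 and 1 fixed points.
-/

set_option autoImplicit false

namespace Pool.Agent.U344.KM

open Pool.Agent.H816R2.KM2

def full286 : List (List ℕ) :=
  [[0, 5, 60, 202, 212, 227],
   [0, 6, 89, 187, 214, 257],
   [0, 7, 74, 125, 174, 215],
   [0, 8, 45, 65, 104, 199],
   [0, 9, 82, 114, 132, 230],
   [0, 10, 25, 79, 173, 269],
   [0, 12, 71, 133, 210, 243],
   [0, 13, 47, 117, 160, 198],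
   [0, 14, 57, 140, 164, 275],
   [0, 16, 72, 153, 235, 258],
   [0, 19, 37, 115, 149, 270],
   [0, 24, 138, 200, 206, 272],
   [0, 27, 59, 102, 169, 250],
   [0, 34, 158, 205, 217, 261],
   [0, 49, 188, 201, 260, 277],
   [0, 95, 124, 179, 184, 193],
   [0, 97, 146, 161, 171, 194],
   [0, 98, 136, 156, 186, 192],
   [0, 106, 147, 189, 218, 264],
   [0, 108, 122, 185, 240, 254],
   [0, 111, 139, 172, 204, 278],
   [0, 113, 135, 182, 265, 284],
   [0, 116, 175, 195, 236, 279],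
   [0, 120, 126, 211, 245, 274],
   [0, 141, 180, 219, 221, 225],
   [0, 155, 168, 177, 234, 255],
   [0, 159, 162, 166, 209, 273],
   [190, 195, 217, 237, 250, 282]]

def short286 : List (List ℕ × List ℕ) :=
  [([0, 5, 10, 15, 20, 25, 30, 35, 40, 45, 50, 55, 60, 65, 70, 75, 80, 85, 90], [0, 1, 2, 3, 4, 285]),
   ([0, 5, 10, 15, 20, 25, 30, 35, 40, 45, 50, 55, 60, 65, 70, 75, 80, 85, 90], [95, 96, 97, 98, 99, 285]),
   ([0, 5, 10, 15, 20, 25, 30, 35, 40, 45, 50, 55, 60, 65, 70, 75, 80, 85, 90], [190, 191, 192, 193, 194, 285])]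

theorem ex286 : ∃ 𝓑 : Set (Finset (Fin 286)), IsS2 (Fin 286) 6 𝓑 :=
  of_coded (codedP 5 (codedZ 19)) 6 3 1 286 rfl full286 short286
    (by decide +kernel) (by decide +kernel) (by decide +kernel) (by decide +kernel)
    (by decide +kernel) (by decide +kernel)

end Pool.Agent.U344.KM
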