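import Pool.Agent.H816R2.KM2N

/-!
A Steiner system `S(2,6,321)`: 5 copies of an abelian group of order 63 and 6 fixed points.
-/

set_option autoImplicit false

namespace Pool.Agent.U344.KM

open Pool.Agent.H816R2.KM2

def full321 : List (List ℕ) :=
  [[0, 1, 4, 68, 248, 266],
   [0, 2, 63, 132, 226, 280],
   [0, 9, 105, 151, 164, 187],
   [0, 10, 31, 43, 182, 242],
   [0, 11, 56, 82, 109, 133],
   [0, 13, 170, 202, 245, 258],
   [0, 14, 166, 200, 252, 277],
   [0, 15, 30, 38, 175, 307],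
   [0, 19, 103, 114, 198, 235],
   [0, 20, 223, 274, 276, 293],
   [0, 22, 156, 181, 253, 264],
   [0, 23, 159, 188, 206, 213],
   [0, 25, 191, 193, 237, 311],
   [0, 26, 104, 111, 269, 288],
   [0, 27, 102, 120, 141, 150],
   [0, 28, 73, 163, 267, 285],
   [0, 35, 81, 180, 194, 212],
   [0, 65, 66, 129, 214, 304],
   [0, 69, 126, 131, 205, 313],
   [0, 71, 97, 106, 138, 183],
   [0, 72, 146, 153, 197, 224],
   [0, 74, 91, 116, 122, 294],
   [0, 76, 149, 207, 282, 320],
   [0, 77, 89, 100, 119, 222],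
   [0, 78, 174, 279, 291, 312],
   [0, 79, 167, 217, 259, 315],
   [0, 83, 112, 201, 209, 298],
   [0, 85, 110, 208, 299, 309],
   [0, 86, 99, 171, 227, 236],
   [0, 88, 179, 215, 290, 318],
   [0, 90, 113, 144, 272, 281],
   [0, 92, 230, 255, 261, 292],
   [0, 101, 192, 220, 243, 284],
   [0, 115, 152, 218, 305, 317],
   [0, 117, 162, 173, 260, 296],
   [0, 121, 176, 228, 297, 319],
   [0, 123, 147, 204, 219, 225],
   [0, 124, 158, 196, 289, 316],
   [0, 127, 128, 134, 234, 270],
   [0, 139, 210, 268, 275, 283],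
   [0, 184, 229, 239, 250, 300],
   [63, 65, 69, 130, 220, 292],
   [63, 73, 196, 197, 246, 281],
   [63, 76, 151, 186, 225, 247],
   [63, 77, 146, 183, 270, 293],
   [63, 80, 235, 267, 268, 272],
   [63, 140, 148, 161, 164, 240],
   [63, 142, 188, 202, 282, 314],
   [63, 143, 187, 206, 228, 310],
   [63, 152, 192, 216, 241, 299],
   [63, 155, 170, 175, 185, 276],
   [63, 179, 209, 255, 277, 288],
   [126, 157, 215, 253, 257, 291],
   [126, 158, 217, 222, 251, 265]]

def short321 : List (List ℕ × List ℕ) :=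
  [([0, 1, 2, 9, 10, 11, 18, 19, 20, 27, 28, 29, 36, 37, 38, 45, 46, 47, 54, 55, 56], [189, 192, 195, 252, 255, 258]),
   ([0], [315, 316, 317, 318, 319, 320])]

theorem ex321 : ∃ 𝓑 : Set (Finset (Fin 321)), IsS2 (Fin 321) 6 𝓑 :=
  of_coded (codedP 9 (codedZ 7)) 6 5 6 321 rfl full321 short321
    (by decide +kernel) (by decide +kernel) (by decide +kernel) (by decide +kernel)
    (by decide +kernel) (by decide +kernel)

end Pool.Agent.U344.KM
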