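import Pool.Agent.H816R2.KM2N

/-!
A Steiner system `S(2,6,651)`: 3 copies of an abelian group of order 217 and 0 fixed points.
-/

set_option autoImplicit false

namespace Pool.Agent.U344.KM

open Pool.Agent.H816R2.KM2

def full651 : List (List ℕ) :=
  [[0, 1, 26, 201, 320, 341],
   [0, 2, 306, 355, 444, 647],
   [0, 3, 223, 437, 474, 621],
   [0, 7, 499, 508, 592, 597],
   [0, 8, 83, 369, 560, 625],
   [0, 9, 358, 403, 614, 650],
   [0, 10, 14, 227, 228, 443],
   [0, 12, 261, 307, 452, 486],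
   [0, 13, 152, 298, 470, 538],
   [0, 15, 253, 342, 494, 561],
   [0, 16, 461, 476, 551, 598],
   [0, 17, 131, 160, 252, 389],
   [0, 18, 80, 107, 281, 417],
   [0, 19, 505, 556, 628, 648],
   [0, 20, 334, 413, 539, 612],
   [0, 21, 469, 480, 634, 637],
   [0, 22, 71, 91, 376, 594],
   [0, 28, 272, 419, 449, 450],
   [0, 30, 87, 134, 187, 241],
   [0, 31, 183, 274, 348, 576],
   [0, 32, 68, 338, 411, 545],
   [0, 33, 66, 118, 162, 225],
   [0, 35, 127, 266, 420, 562],
   [0, 38, 402, 408, 567, 611],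
   [0, 39, 286, 287, 517, 557],
   [0, 43, 99, 140, 224, 350],
   [0, 44, 290, 303, 497, 547],
   [0, 45, 108, 147, 384, 426],
   [0, 47, 392, 407, 587, 635],
   [0, 50, 284, 359, 608, 633],
   [0, 55, 344, 423, 506, 537],
   [0, 58, 251, 346, 515, 579],
   [0, 59, 388, 414, 432, 622],
   [0, 60, 282, 299, 322, 528],
   [0, 61, 249, 365, 570, 632],
   [0, 73, 401, 433, 514, 520],
   [0, 74, 297, 328, 643, 644],
   [0, 79, 273, 312, 482, 564],
   [0, 82, 243, 422, 473, 604],
   [0, 84, 260, 264, 550, 627],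
   [0, 86, 235, 455, 500, 575],
   [0, 89, 289, 456, 502, 601],
   [0, 94, 283, 396, 451, 649],
   [0, 95, 245, 351, 511, 534],
   [0, 98, 267, 462, 487, 504],
   [0, 101, 271, 333, 468, 624],
   [0, 102, 268, 421, 507, 565],
   [0, 105, 483, 490, 596, 600],
   [0, 219, 262, 395, 436, 438],
   [0, 221, 453, 533, 554, 642],
   [0, 222, 325, 332, 465, 626],
   [0, 226, 323, 488, 519, 571],
   [0, 240, 404, 409, 509, 524],
   [0, 248, 257, 415, 573, 586],
   [0, 275, 291, 368, 380, 439],
   [0, 330, 429, 522, 568, 607],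
   [0, 472, 532, 548, 566, 589],
   [0, 498, 531, 541, 553, 619],
   [217, 219, 311, 346, 500, 591],
   [217, 227, 293, 366, 389, 566],
   [217, 228, 274, 300, 374, 535],
   [217, 231, 258, 419, 537, 572],
   [217, 241, 268, 326, 550, 621],
   [217, 242, 351, 412, 492, 561],
   [217, 245, 282, 401, 504, 609]]

def short651 : List (List ℕ × List ℕ) :=
  []

theorem ex651 : ∃ 𝓑 : Set (Finset (Fin 651)), IsS2 (Fin 651) 6 𝓑 :=
  of_coded (codedP 7 (codedZ 31)) 6 3 0 651 rfl full651 short651
    (by decide +kernel) (by decide +kernel) (by decide +kernel) (by decide +kernel)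
    (by decide +kernel) (by decide +kernel)

end Pool.Agent.U344.KM
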