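import Pool.Agent.H816R2.KM2N

/-!
From the set form of a Steiner system to the finset form.
-/

set_option autoImplicit false

namespace Pool.Agent.U344

open Pool.Agent.H816R2.KM2

theorem toSteiner {m k : ℕ} (h : ∃ 𝓑 : Set (Finset (Fin m)), IsS2 (Fin m) k 𝓑) :
    ∃ B : Finset (Finset (Fin m)), (∀ b ∈ B, b.card = k) ∧
      ∀ T : Finset (Fin m), T.card = 2 → ∃! b, b ∈ B ∧ T ⊆ b := by
  classical
  obtain ⟨𝓑, h1, h2⟩ := h
  refine ⟨Finset.univ.filter (fun B => B ∈ 𝓑), ?_, ?_⟩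
  · intro B hB
    exact h1 B (Finset.mem_filter.1 hB).2
  · intro T hT
    obtain ⟨a, b, hab, rfl⟩ := Finset.card_eq_two.1 hT
    obtain ⟨B, ⟨hB, ha, hb⟩, hu⟩ := h2 a b hab
    have hsub : ∀ C : Finset (Fin m), ({a, b} : Finset (Fin m)) ⊆ C ↔ a ∈ C ∧ b ∈ C := by
      intro C
      rw [Finset.insert_subset_iff, Finset.singleton_subset_iff]
    refine ⟨B, ⟨Finset.mem_filter.2 ⟨Finset.mem_univ _, hB⟩, (hsub B).2 ⟨ha, hb⟩⟩, ?_⟩
    rintro C ⟨hC, hC'⟩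
    obtain ⟨ha', hb'⟩ := (hsub C).1 hC'
    exact hu C ⟨(Finset.mem_filter.1 hC).2, ha', hb'⟩

end Pool.Agent.U344
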